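import Pool.Agent.X223.NB.Arch

/-!
Q1 of MP_37207a_lc, positive answer: there is a subfield `K` of the real numbers all of whose
field orderings are archimedean, and in which some set that is definable in the language of rings
(without parameters) is not Borel: the set of cubes.

For a transcendence basis `(x_i)` of the real numbers and a set `S` of indices let `K_S` be a
subfield maximal among those that contain `x_i` for `i ∈ S` and `x_i ^ 3` but not `x_i` for
`i ∉ S`. Then every positive element of `K_S` is a square in `K_S`, and `x_i ^ 3` is a cube in
`K_S` if and only if `i ∈ S`. There are more sets `S` than Borel sets.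
-/

set_option autoImplicit false

namespace Pool.Agent.Results.MP_37207a_lc.ArchimedeanNonBorel

open FirstOrder MeasureTheory Pool.Agent.X223.NB

/-- The set `D` is definable in the ring `K`, in the language of rings, without parameters. -/
def RingDefinable (K : Type) [Field K] (D : Set K) : Prop :=
  letI : Language.ring.Structure K := (FirstOrder.Ring.compatibleRingOfRing K).toStructure
  (∅ : Set K).Definable₁ Language.ring D

theorem result : ∃ K : Subfield ℝ, OnlyArchimedeanOrderings K ∧
    ∃ D : Set K, RingDefinable K D ∧ ¬ MeasurableSet[borel K] D := by
  obtain ⟨K, hK, hB⟩ := main
  exact ⟨K, onlyArch hK, cubes K, definable_cubes K, hB⟩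

end Pool.Agent.Results.MP_37207a_lc.ArchimedeanNonBorel
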